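import Mathlib
import Pool.Agent.H.MP_5ab9c0_an.A

namespace Pool.Agent.Results.MP_5ab9c0_an.NotOC

open Filter Topology Set Pool.Agent.H.MP_5ab9c0_an

universe u

theorem result : ∃ (X : Type) (_ : NormedAddCommGroup X) (_ : NormedSpace ℝ X) (_ : CompleteSpace X)
    (_ : PartialOrder X), IsOrderedAddMonoid X ∧ PosSMulMono ℝ X ∧ IsClosed {x : X | 0 ≤ x} ∧
    (∀ (J : Type u) [Preorder J] [IsDirected J (· ≤ ·)] [Nonempty J] (x : J → X) (s : X),
      Monotone x → IsLUB (range x) s → Tendsto x atTop (𝓝 s)) ∧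
    ∃ x : ℕ → X, Monotone x ∧ BddAbove (range x) ∧ ¬ ∃ l, Tendsto x atTop (𝓝 l) :=
  ⟨X, _, _, inferInstance, _, inferInstance, inferInstance, closed,
    fun _ _ _ _ x s hx hs => conv x hx s hs, seq, seq_mono, ⟨top 0, top_ub (by norm_num)⟩,
    fun ⟨l, h⟩ => not_conv l h⟩

end Pool.Agent.Results.MP_5ab9c0_an.NotOC
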